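import Mathlib

/-!
# Toric generalized pairs with additional divisors, and their `a`-lc threshold polytopes

An affine toric variety `X_σ` with a torus-fixed point `x` is given by a lattice, here `ℤ^n` without
loss of generality, and an `n`-dimensional rational polyhedral cone `σ` in `ℝ^n`.

A toric generalized pair `(X_σ, B + M)` has a boundary `B` supported on the torus-invariant prime
divisors and a nef part `M = ∑ μ_k M_k`, where `M_k` is a b-Cartier b-divisor generated by a finite
nonempty set `S_k` of characters: on a toric modification of `X_σ` on which the function
`w ↦ min {⟨m, w⟩ : m ∈ S_k}` is linear on the cones of the fan, minus this function defines the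
divisor `M_k`. That `K + B + M` is `ℝ`-Cartier means that there is a linear function `ψ` such that
the generalized log discrepancies are `ψ(w) - ∑ μ_k min {⟨m, w⟩ : m ∈ S_k}`, for the primitive
vectors `w` of `σ`.

In the same way an effective toric divisor `D` with a nef part `N = ∑ ν_k N_k`, with `D + N`
`ℝ`-Cartier, is given by a linear function `φ` and by finite sets `T_k` of characters; its order along
`w` is `φ(w) + ∑ ν_k min {⟨m, w⟩ : m ∈ T_k}`, and adding `s (D + N)` to the pair lowers the log
discrepancy by `s` times this order. A product of real powers of monomial ideals generated by the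
characters in the sets `T_k` is the special case `φ = 0`, `T_k` in the dual cone.
-/

noncomputable section

namespace Pool.Agent.helper20.ALC

/-- The data of a toric generalized pair of dimension `n`, with `m` additional divisors `D_j`, each
with a nef part `N_j`. -/
structure Data (n m : ℕ) where
  /-- the number of the given generators of the cone `σ` -/
  p : ℕ
  /-- the generators `v i` of the cone `σ`, for instance the primitive generators of its rays -/
  v : Fin p → Fin n → ℤ
  /-- the linear function `ψ` of the pair -/
  psi : Fin n → ℝ
  /-- the coefficients `μ_k` together with the finite sets `S_k` of characters -/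
  parts : List (ℝ × Finset (Fin n → ℤ))
  /-- the linear functions `φ_j` of the divisors `D_j + N_j` -/
  phi : Fin m → Fin n → ℝ
  /-- for each `j` the coefficients `ν_k` together with the finite sets `T_k` of characters -/
  dparts : Fin m → List (ℝ × Finset (Fin n → ℤ))

variable {n m : ℕ}

/-- the pairing of a character `m` of the torus with `w` -/
def pair (m : Fin n → ℤ) (w : Fin n → ℝ) : ℝ := ∑ j, (m j : ℝ) * w j

/-- an integral vector, seen as a real vector -/
def toReal (z : Fin n → ℤ) : Fin n → ℝ := fun j => (z j : ℝ)

/-- the cone `σ`: all nonnegative combinations of the generators -/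
def cone (t : Data n m) : Set (Fin n → ℝ) :=
  {w | ∃ μ : Fin t.p → ℝ, (∀ i, 0 ≤ μ i) ∧ ∀ j, w j = ∑ i, μ i * (t.v i j : ℝ)}

/-- the least value of `pair m w` for `m` in `S` -/
def low (S : Finset (Fin n → ℤ)) (w : Fin n → ℝ) : ℝ :=
  sInf ((fun m => pair m w) '' (S : Set (Fin n → ℤ)))

/-- the generalized log discrepancy of the pair along the toric valuation `w` -/
def logDisc (t : Data n m) (w : Fin n → ℝ) : ℝ :=
  ∑ j, t.psi j * w j - (t.parts.map fun a => a.1 * low a.2 w).sum

/-- the order of the `j`-th divisor `D_j + N_j` along the toric valuation `w` -/
def order (t : Data n m) (j : Fin m) (w : Fin n → ℝ) : ℝ :=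
  ∑ i, t.phi j i * w i + ((t.dparts j).map fun a => a.1 * low a.2 w).sum

/-- `t` describes a toric generalized pair `(X_σ, B + M)` of full dimension and divisors
`D_j + N_j`, with all coefficients in `Γ`; for `B` and `D_j`, sums of elements of `Γ` (in
particular `0`) are allowed -/
structure HasCoeff (Γ : Set ℝ) (t : Data n m) : Prop where
  /-- the coefficients of the boundary `B` are finite sums of elements of `Γ` -/
  boundary : ∀ i, 1 - logDisc t (toReal (t.v i)) ∈ AddSubmonoid.closure Γ
  /-- the coefficients of the nef part lie in `Γ`, and the sets of characters are nonempty -/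
  parts : ∀ a ∈ t.parts, a.1 ∈ Γ ∧ a.2.Nonempty
  /-- the coefficients of the divisors `D_j` are finite sums of elements of `Γ` -/
  divisors : ∀ j i, order t j (toReal (t.v i)) ∈ AddSubmonoid.closure Γ
  /-- the coefficients of the nef parts `N_j` lie in `Γ`, and the sets of characters are nonempty -/
  dparts : ∀ j, ∀ a ∈ t.dparts j, a.1 ∈ Γ ∧ a.2.Nonempty
  /-- `σ` is `n`-dimensional -/
  full : (interior (cone t)).Nonempty

/-- The `a`-lc threshold polytope: the set of all `s` with nonnegative coordinates such that the
generalized pair `(X_σ, B + M + ∑ s_j (D_j + N_j))` is `a`-lc at the torus-fixed point, that is, all its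
log discrepancies along the toric valuations with centre `x`, given by the integral points in the
interior of `σ`, are at least `a`. -/
def thresholds (a : ℝ) (t : Data n m) : Set (Fin m → ℝ) :=
  {s | (∀ j, 0 ≤ s j) ∧ ∀ z : Fin n → ℤ, toReal z ∈ interior (cone t) →
    a ≤ logDisc t (toReal z) - ∑ j, s j * order t j (toReal z)}

end Pool.Agent.helper20.ALC
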