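import Pool.Agent.helper22.ACC.Main

/-!
# Sublinear functions and the limit argument without functions
-/

noncomputable section

namespace Pool.Agent.helper20.ALC

open Finset Filter Pool.Agent.helper22.ACC

variable {d : ℕ}

/-- **Limit argument**: some point is approximated by points of infinitely many of the lattices. -/
theorem coreD (L : ℕ → AddSubgroup (Fin d → ℝ)) (hL : ∀ k, IsOver (L k))
    (w : ℕ → Fin d → ℝ) (hw : ∀ k, w k ∈ L k) :
    ∃ k, ∀ δ > 0, ∀ K, ∃ l ≥ K, ∃ g ∈ L l, ∀ i, |w k i - g i| < δ := by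
  classical
  set U : Ultrafilter ℕ := Filter.hyperfilter ℕ with hU
  let M : AddSubgroup (Fin d → ℤ) :=
    { carrier := {m | ∀ᶠ k in (U : Filter ℕ), m ∈ dualL (L k)}
      zero_mem' := Eventually.of_forall fun k => (dualL (L k)).zero_mem
      add_mem' := by
        intro a b ha hb
        exact (ha.and hb).mono fun k h => (dualL (L k)).add_mem h.1 h.2
      neg_mem' := by
        intro a ha
        exact ha.mono fun k h => (dualL (L k)).neg_mem h }
  have hM : ∀ m, m ∈ M ↔ ∀ᶠ k in (U : Filter ℕ), m ∈ dualL (L k) := fun m => Iff.rfl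
  obtain ⟨s, hs⟩ : ∃ s : Finset (Fin d → ℤ), AddSubgroup.closure (s : Set (Fin d → ℤ)) = M := by
    have h1 : (AddSubgroup.toIntSubmodule M).FG := IsNoetherian.noetherian _
    rw [Submodule.fg_iff_addSubgroup_fg] at h1
    exact h1
  have hev : ∀ᶠ k in (U : Filter ℕ), M ≤ dualL (L k) := by
    have h1 : ∀ᶠ k in (U : Filter ℕ), ∀ m ∈ s, m ∈ dualL (L k) := by
      rw [Filter.eventually_all_finset]
      intro m hm
      rw [← hM, ← hs]
      exact AddSubgroup.subset_closure hm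
    refine h1.mono fun k hk => ?_
    rw [← hs, AddSubgroup.closure_le]
    exact hk
  obtain ⟨k, hk⟩ := hev.exists
  refine ⟨k, fun δ hδ K => ?_⟩
  have hwM : ∀ m ∈ M, ∃ z : ℤ, ∑ i, (m i : ℝ) * w k i = z := fun m hm => hk hm _ (hw k)
  obtain ⟨B, hB⟩ := density M (w k) hwM hδ
  have hev2 : ∀ᶠ l in (U : Filter ℕ), ∀ m ∈ B, (m ∈ dualL (L l) ↔ m ∈ M) := by
    rw [Filter.eventually_all_finset]
    intro m _
    by_cases hm : m ∈ M
    · exact ((hM m).1 hm).mono fun l hl => ⟨fun _ => hm, fun _ => hl⟩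
    · have h1 : ¬ ∀ᶠ l in (U : Filter ℕ), m ∈ dualL (L l) := fun h => hm ((hM m).2 h)
      rw [← Ultrafilter.eventually_not] at h1
      exact h1.mono fun l hl => ⟨fun h => absurd h hl, fun h => absurd h hm⟩
  have hev3 : ∀ᶠ l in (U : Filter ℕ), K ≤ l :=
    (Filter.eventually_ge_atTop K).filter_mono Nat.hyperfilter_le_atTop
  obtain ⟨l, hl1, hl2⟩ := (hev2.and hev3).exists
  obtain ⟨g, hgL, hg⟩ := hB (L l) (hL l) hl1
  exact ⟨l, hl2, g, hgL, hg⟩

theorem GG_sub {b : Fin d → ℝ} {I : List (ℝ × Set (Fin d → ℕ))}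
    (hI : ∀ a ∈ I, 0 ≤ a.1 ∧ a.2.Nonempty) {u v : Fin d → ℝ} (hu : ∀ i, 0 < u i)
    (hv : ∀ i, 0 < v i) : GG b I (u + v) ≤ GG b I u + GG b I v := by
  have h1 : (I.map fun a => a.1 * od a.2 u).sum + (I.map fun a => a.1 * od a.2 v).sum ≤
      (I.map fun a => a.1 * od a.2 (u + v)).sum := by
    rw [← List.sum_map_add]
    apply List.sum_le_sum
    intro a ha
    have := mul_le_mul_of_nonneg_left (od_add (hI a ha).2 hu hv) (hI a ha).1
    rw [mul_add] at this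
    exact this
  simp only [GG, Pi.add_apply, add_mul, Finset.sum_add_distrib]
  linarith

theorem GG_hom {b : Fin d → ℝ} {I : List (ℝ × Set (Fin d → ℕ))} {t : ℝ} (ht : 0 < t)
    (u : Fin d → ℝ) : GG b I (t • u) = t * GG b I u := by
  simp only [GG, od_smul _ ht, Pi.smul_apply, smul_eq_mul, mul_sub, Finset.mul_sum]
  congr 1
  · exact Finset.sum_congr rfl fun i _ => by ring
  · rw [← List.sum_map_mul_left]
    congr 1
    exact List.map_congr_left fun a _ => by ring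

theorem GG_le {b : Fin d → ℝ} {I : List (ℝ × Set (Fin d → ℕ))} (hb : ∀ i, 0 ≤ b i)
    (hI : ∀ a ∈ I, 0 ≤ a.1 ∧ a.2.Nonempty) {u : Fin d → ℝ} (hu : ∀ i, 0 < u i) :
    GG b I u ≤ ∑ i, u i := by
  have h1 : 0 ≤ (I.map fun a => a.1 * od a.2 u).sum := by
    apply List.sum_nonneg
    intro x hx
    obtain ⟨a, ha, rfl⟩ := List.mem_map.1 hx
    exact mul_nonneg (hI a ha).1 (od_nonneg _ hu)
  have h2 : ∑ i, u i * (1 - b i) ≤ ∑ i, u i := by
    refine Finset.sum_le_sum fun i _ => ?_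
    nlinarith [hu i, hb i]
  simp only [GG]; linarith

/-- a sublinear function which is nonnegative at the integral points is nonnegative -/
theorem nonneg_of_nat {F : (Fin d → ℝ) → ℝ}
    (hsub : ∀ u v : Fin d → ℝ, (∀ i, 0 < u i) → (∀ i, 0 < v i) → F (u + v) ≤ F u + F v)
    (hhom : ∀ (t : ℝ) (u : Fin d → ℝ), 0 < t → (∀ i, 0 < u i) → F (t • u) = t * F u)
    (hle : ∀ u : Fin d → ℝ, (∀ i, 0 < u i) → F u ≤ ∑ i, u i)
    (hn : ∀ z : Fin d → ℕ, (∀ i, 0 < z i) → 0 ≤ F (fun i => (z i : ℝ)))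
    (u : Fin d → ℝ) (hu : ∀ i, 0 < u i) : 0 ≤ F u := by
  by_contra hcon
  push Not at hcon
  obtain ⟨N, hN0, hN⟩ : ∃ N : ℕ, 0 < N ∧ (d : ℝ) * (1 / N) < - F u := by
    obtain ⟨N, hN⟩ := exists_nat_gt ((d : ℝ) / (- F u))
    have h1 : (0 : ℝ) ≤ (d : ℝ) / (- F u) := div_nonneg (Nat.cast_nonneg _) (by linarith)
    have h2 : (0 : ℝ) < N := lt_of_le_of_lt h1 hN
    refine ⟨N, by exact_mod_cast h2, ?_⟩
    rw [div_lt_iff₀ (by linarith)] at hN
    rw [mul_one_div, div_lt_iff₀ h2]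
    linarith
  have hNr : (0 : ℝ) < N := by exact_mod_cast hN0
  set z : Fin d → ℕ := fun i => ⌊N * u i⌋₊ + 1 with hz
  have hz1 : ∀ i, (N : ℝ) * u i < z i := fun i => by
    simp only [hz]; push_cast; exact Nat.lt_floor_add_one _
  have hz2 : ∀ i, (z i : ℝ) ≤ N * u i + 1 := fun i => by
    simp only [hz]; push_cast
    have := Nat.floor_le (mul_nonneg hNr.le (hu i).le)
    linarith
  set q : Fin d → ℝ := fun i => (z i : ℝ) with hq
  have h3 : (N : ℝ) • u + (q - (N : ℝ) • u) = q := by abel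
  have h4 : ∀ i, 0 < ((N : ℝ) • u) i := fun i => mul_pos hNr (hu i)
  have h5 : ∀ i, 0 < (q - (N : ℝ) • u) i := fun i => by
    simp only [Pi.sub_apply, Pi.smul_apply, smul_eq_mul, hq]
    linarith [hz1 i]
  have h6 := hsub _ _ h4 h5
  rw [h3, hhom _ _ hNr hu] at h6
  have h7 := hle _ h5
  have h8 : ∑ i, (q - (N : ℝ) • u) i ≤ ∑ _i : Fin d, (1 : ℝ) := by
    refine Finset.sum_le_sum fun i _ => ?_
    simp only [Pi.sub_apply, Pi.smul_apply, smul_eq_mul, hq]
    linarith [hz2 i]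
  simp only [Finset.sum_const, Finset.card_univ, Fintype.card_fin, nsmul_eq_mul, mul_one] at h8
  have h9 := hn z (fun i => Nat.succ_pos _)
  have h10 : (d : ℝ) < N * (- F u) := by
    have := mul_lt_mul_of_pos_left hN hNr
    have e : (N : ℝ) * (d * (1 / N)) = d := by field_simp
    rw [e] at this
    exact this
  change 0 ≤ F q at h9
  linarith

/-- the order of `D + N` in coordinates -/
def OO (c : Fin d → ℝ) (J : List (ℝ × Set (Fin d → ℕ))) (u : Fin d → ℝ) : ℝ :=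
  ∑ i, u i * c i + (J.map fun a => a.1 * od a.2 u).sum

theorem OO_eq (c : Fin d → ℝ) (J : List (ℝ × Set (Fin d → ℕ))) (u : Fin d → ℝ) :
    OO c J u = ∑ i, u i - GG c J u := by
  simp only [OO, GG, mul_sub, mul_one, Finset.sum_sub_distrib]
  ring

theorem OO_mono {c c' : Fin d → ℝ} {J J' : List (ℝ × Set (Fin d → ℕ))} (hc : c ≤ c')
    (hJ : ∀ a ∈ J', 0 ≤ a.1 ∧ a.2.Nonempty) (h : List.SublistForall₂ Ri J J')
    {u : Fin d → ℝ} (hu : ∀ i, 0 < u i) : OO c J u ≤ OO c' J' u := by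
  rw [OO_eq, OO_eq]
  linarith [GG_mono hc hJ h hu]

theorem OO_nonneg {c : Fin d → ℝ} {J : List (ℝ × Set (Fin d → ℕ))} (hc : ∀ i, 0 ≤ c i)
    (hJ : ∀ a ∈ J, 0 ≤ a.1 ∧ a.2.Nonempty) {u : Fin d → ℝ} (hu : ∀ i, 0 < u i) :
    0 ≤ OO c J u := by
  rw [OO_eq]
  linarith [GG_le hc hJ hu]

/-- sublinearity of the log discrepancy after adding divisors -/
theorem good_comb {m : ℕ} {b : Fin d → ℝ} {I : List (ℝ × Set (Fin d → ℕ))} {c : Fin m → Fin d → ℝ}
    {J : Fin m → List (ℝ × Set (Fin d → ℕ))} {s : Fin m → ℝ} (hb : ∀ i, 0 ≤ b i)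
    (hI : ∀ a ∈ I, 0 ≤ a.1 ∧ a.2.Nonempty) (hc : ∀ j i, 0 ≤ c j i)
    (hJ : ∀ j, ∀ a ∈ J j, 0 ≤ a.1 ∧ a.2.Nonempty) (hs : ∀ j, 0 ≤ s j)
    (hn : ∀ z : Fin d → ℕ, (∀ i, 0 < z i) →
      0 ≤ GG b I (fun i => (z i : ℝ)) - ∑ j, s j * OO (c j) (J j) (fun i => (z i : ℝ))) :
    Good (fun u => GG b I u - ∑ j, s j * OO (c j) (J j) u) := by
  have hsub : ∀ u v : Fin d → ℝ, (∀ i, 0 < u i) → (∀ i, 0 < v i) →
      GG b I (u + v) - ∑ j, s j * OO (c j) (J j) (u + v) ≤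
      (GG b I u - ∑ j, s j * OO (c j) (J j) u) + (GG b I v - ∑ j, s j * OO (c j) (J j) v) := by
    intro u v hu hv
    have h1 := GG_sub (b := b) hI hu hv
    have h2 : ∑ j, s j * OO (c j) (J j) u + ∑ j, s j * OO (c j) (J j) v ≤
        ∑ j, s j * OO (c j) (J j) (u + v) := by
      rw [← Finset.sum_add_distrib]
      refine Finset.sum_le_sum fun j _ => ?_
      rw [← mul_add]
      refine mul_le_mul_of_nonneg_left ?_ (hs j)
      rw [OO_eq, OO_eq, OO_eq]
      have h3 := GG_sub (b := c j) (hJ j) hu hv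
      simp only [Pi.add_apply, Finset.sum_add_distrib]
      linarith
    linarith
  have hhom : ∀ (t : ℝ) (u : Fin d → ℝ), 0 < t → (∀ i, 0 < u i) →
      GG b I (t • u) - ∑ j, s j * OO (c j) (J j) (t • u) =
      t * (GG b I u - ∑ j, s j * OO (c j) (J j) u) := by
    intro t u ht _
    rw [GG_hom ht, mul_sub, Finset.mul_sum]
    congr 1
    refine Finset.sum_congr rfl fun j _ => ?_
    rw [OO_eq, OO_eq, GG_hom ht]
    simp only [Pi.smul_apply, smul_eq_mul, ← Finset.mul_sum]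
    ring
  have hle : ∀ u : Fin d → ℝ, (∀ i, 0 < u i) →
      GG b I u - ∑ j, s j * OO (c j) (J j) u ≤ ∑ i, u i := by
    intro u hu
    have h1 := GG_le hb hI hu
    have h2 : 0 ≤ ∑ j, s j * OO (c j) (J j) u :=
      Finset.sum_nonneg fun j _ => mul_nonneg (hs j) (OO_nonneg (hc j) (hJ j) hu)
    linarith
  exact ⟨hsub, hhom, nonneg_of_nat hsub hhom hle hn, hle⟩

end Pool.Agent.helper20.ALC
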